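import Pool.Agent.KDT.StmtsK

/-!
# KDT, row LDT: the determinant at the three kinds of places (helper9)
-/

set_option autoImplicit false

namespace Pool.Agent.KDT.H9

open Polynomial NumberField H58Q Pool.Agent.SZT Pool.Agent.KDT
open Pool.Agent.MNT (QU vC)

/-- The determinant after an embedding and a unipotent change of coordinates. -/
theorem det_eq (hU : UnvStatement) (hQ : KquStatement) {K E : Type} [Field K] [Field E]
    (i : K →+* E) (f : K[X]) (κ : ℕ) (A B : Ex κ → K[X]) (hf : f.Monic) (h5 : f.natDegree = 5)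
    (hm : ∀ j, Mum f (A j) (B j) ∧ (A j).natDegree = 2) (c : Fin 6 → E) :
    (Matrix.of fun (j e : Ex κ) => mon e.1 (uni c (fun l => i (kum f (A j) (B j) l)))).det =
      i (Matrix.of fun (j e : Ex κ) => mon e.1 (kum f (A j) (B j))).det := by
  rw [hU E (f.map i) c κ (fun j l => i (kum f (A j) (B j) l)) (fun j => by
    rw [← (hQ.2 K E i f 0 0).2, hQ.1 K f _ _ hf h5 (hm j).1 (hm j).2, map_zero]), RingHom.map_det]
  congr 1
  ext j e
  simp only [Matrix.of_apply, RingHom.mapMatrix_apply, Matrix.map_apply, mon, map_prod, map_pow]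

/-- The size of the determinant. -/
theorem bound (hU : UnvStatement) (hD : DtbStatement) (hQ : KquStatement) {K E : Type} [Field K]
    [Field E] (i : K →+* E) (f : K[X]) (κ : ℕ) (A B : Ex κ → K[X]) (hf : f.Monic)
    (h5 : f.natDegree = 5) (hm : ∀ j, Mum f (A j) (B j) ∧ (A j).natDegree = 2) (c : Fin 6 → E)
    (v : K → ℝ) (w : AbsoluteValue E ℝ) (hw : ∀ x, w (i x) = v x) (R C : Ex κ → ℝ)
    (hb : ∀ j e : Ex κ, w (mon e.1 (uni c (fun l => i (kum f (A j) (B j) l)))) ≤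
      Real.exp (R j + C e))
    (h0 : (Matrix.of fun (j e : Ex κ) => mon e.1 (kum f (A j) (B j))).det ≠ 0) :
    Real.log (v (Matrix.of fun (j e : Ex κ) => mon e.1 (kum f (A j) (B j))).det) ≤
      ∑ j, R j + ∑ e, C e + Real.log ((Ex κ).card.factorial : ℝ) ∧
    (IsNonarchimedean w →
      Real.log (v (Matrix.of fun (j e : Ex κ) => mon e.1 (kum f (A j) (B j))).det) ≤
        ∑ j, R j + ∑ e, C e) := by
  have h1 := hD E w (Ex κ) (Matrix.of fun (j e : Ex κ) =>
    mon e.1 (uni c (fun l => i (kum f (A j) (B j) l)))) (fun j => Real.exp (R j))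
    (fun e => Real.exp (C e)) (fun j => (Real.exp_pos _).le) (fun e => (Real.exp_pos _).le)
    (fun j e => by
      rw [Matrix.of_apply, ← Real.exp_add]
      exact hb j e)
  rw [det_eq hU hQ i f κ A B hf h5 hm c, hw, ← Real.exp_sum, ← Real.exp_sum, ← Real.exp_add,
    Fintype.card_coe] at h1
  have hpos : 0 < v (Matrix.of fun (j e : Ex κ) => mon e.1 (kum f (A j) (B j))).det := by
    rw [← hw]
    exact w.pos (by rwa [Ne, map_eq_zero])
  have hfac : (0 : ℝ) < ((Ex κ).card.factorial : ℝ) := by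
    exact_mod_cast Nat.factorial_pos _
  refine ⟨?_, fun hn => ?_⟩
  · rw [Real.log_le_iff_le_exp hpos, Real.exp_add _ (Real.log _), Real.exp_log hfac, mul_comm]
    exact h1.1
  · rw [Real.log_le_iff_le_exp hpos]
    exact h1.2 hn

theorem vg_mum {K : Type} [Field K] {f A B : K[X]} (h : VG f A B) :
    Mum f A B ∧ A.natDegree = 2 := ⟨h.1.toMum, h.1.two⟩

theorem part1 (hPLF : PlfStatement) (hU : UnvStatement) (hD : DtbStatement) (hC : CtsStatement)
    (hQ : KquStatement) :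
    ∃ c2 : ℝ, 0 ≤ c2 ∧ ∀ (K : Type) [Field K] [NumberField K] (v : FinitePlace K) (f : K[X])
    (κ : ℕ) (A B U W : Ex κ → K[X]) (M : Ex κ → ℕ), f.Monic → f.natDegree = 5 → Squarefree f →
    (∀ n, v (f.coeff n) ≤ 1) → 0 < κ → (∀ j, VG f (A j) (B j)) →
    (∀ j, Gen f (A j) (B j) (U j) (W j) (M j)) →
    (Matrix.of fun (j e : Ex κ) => mon e.1 (kum f (A j) (B j))).det ≠ 0 →
    Real.log (v (Matrix.of fun (j e : Ex κ) => mon e.1 (kum f (A j) (B j))).det) ≤
      κ * ∑ j, Lv v f (A j) (U j) (M j) -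
        κ * (2 * κ ^ 2 + 2) * ((1 / 2) * Real.log (v (discr f)) + c2 * Real.log (v 2)) := by
  obtain ⟨c2, hc2, H⟩ := hPLF
  refine ⟨c2, hc2, ?_⟩
  intro K _ _ v f κ A B U W M hf h5 hsq hint hκ hVG hGen h0
  obtain ⟨Ω, _, w, i, c, hw, hna, hb⟩ := H K v f hf h5 hsq hint
  have h1 := (bound hU hD hQ i f κ A B hf h5 (fun j => vg_mum (hVG j)) c (fun x => v x) w hw
    (fun j => κ * (Lv v f (A j) (U j) (M j) - (1 / 2) * Real.log (v (discr f)) -
      c2 * Real.log (v 2))) (fun _ => 0) (fun j e => by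
        rw [add_zero]
        exact hb (A j) (B j) (U j) (W j) (M j) (hVG j) (hGen j) κ e.1 e.2) h0).2 hna
  have hcard : ((Ex κ).card : ℝ) = 2 * κ ^ 2 + 2 := by
    rw [(hC κ hκ).1]
    push_cast
    ring
  refine h1.trans (le_of_eq ?_)
  rw [Finset.sum_const_zero, add_zero, ← Finset.mul_sum, Finset.sum_sub_distrib,
    Finset.sum_sub_distrib, Finset.sum_const, Finset.sum_const, Finset.card_univ,
    Fintype.card_coe, nsmul_eq_mul, nsmul_eq_mul, hcard]
  ring

theorem part2 (hPLI : PliStatement) (hU : UnvStatement) (hD : DtbStatement) (hC : CtsStatement)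
    (hQ : KquStatement) (κ : ℕ) :
    ∃ Ck : ℝ, 0 ≤ Ck ∧ ∀ (K : Type) [Field K] [NumberField K] (v : InfinitePlace K)
    (f : K[X]) (A B U W : Ex κ → K[X]) (M : Ex κ → ℕ), f.Monic → f.natDegree = 5 →
    Squarefree f → 0 < κ → (∀ j, VG f (A j) (B j)) →
    (∀ j, Gen f (A j) (B j) (U j) (W j) (M j)) →
    (Matrix.of fun (j e : Ex κ) => mon e.1 (kum f (A j) (B j))).det ≠ 0 →
    Real.log (v (Matrix.of fun (j e : Ex κ) => mon e.1 (kum f (A j) (B j))).det) ≤
      κ * ∑ j, Lv v f (A j) (U j) (M j) -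
        κ * (2 * κ ^ 2 + 2) * ((1 / 2) * Real.log (v (discr f))) +
        (50 * κ ^ 3 + 6 * κ ^ 2 + 40 * κ + 6) / 3 * Real.log (spr (f.map v.embedding)) + Ck := by
  obtain ⟨ci, hci, H⟩ := hPLI
  have hlog : 0 ≤ Real.log ((Ex κ).card.factorial : ℝ) :=
    Real.log_nonneg (by exact_mod_cast Nat.factorial_pos _)
  refine ⟨κ * (Ex κ).card * ci + Real.log ((Ex κ).card.factorial : ℝ),
    add_nonneg (mul_nonneg (by positivity) hci) hlog, ?_⟩
  intro K _ _ v f A B U W M hf h5 hsq hκ hVG hGen h0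
  obtain ⟨c, hb⟩ := H K v f hf h5 hsq
  have h1 := (bound hU hD hQ v.embedding f κ A B hf h5 (fun j => vg_mum (hVG j)) c (fun x => v x)
    (NormedField.toAbsoluteValue ℂ) (fun x => InfinitePlace.norm_embedding_eq v x)
    (fun j => κ * (Lv v f (A j) (U j) (M j) - (1 / 2) * Real.log (v (discr f)) + ci) +
      7 * κ * Real.log (spr (f.map v.embedding)))
    (fun e => (wt e.1 : ℝ) * Real.log (spr (f.map v.embedding))) (fun j e => by
        refine le_trans (hb (A j) (B j) (U j) (W j) (M j) (hVG j) (hGen j) κ e.1 e.2)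
          (le_of_eq ?_)
        congr 1
        ring) h0).1
  have hcard : ((Ex κ).card : ℝ) = 2 * κ ^ 2 + 2 := by
    rw [(hC κ hκ).1]
    push_cast
    ring
  have hwt : (∑ e : Ex κ, (wt e.1 : ℝ)) = (8 * κ ^ 3 + 6 * κ ^ 2 + 6 - 2 * κ) / 3 := by
    have h2 : ((3 * (∑ e ∈ Ex κ, wt e : ℕ) + 2 * κ : ℕ) : ℝ) = ((8 * κ ^ 3 + 6 * κ ^ 2 + 6 : ℕ) : ℝ) :=
      congrArg _ (hC κ hκ).2.2
    push_cast at h2
    rw [Finset.sum_coe_sort (Ex κ) (fun e => (wt e : ℝ))]
    linarith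
  refine h1.trans (le_of_eq ?_)
  rw [Finset.sum_add_distrib, ← Finset.mul_sum, Finset.sum_add_distrib, Finset.sum_sub_distrib,
    Finset.sum_const, Finset.sum_const, Finset.sum_const, Finset.card_univ, Fintype.card_coe,
    ← Finset.sum_mul, hwt, nsmul_eq_mul, nsmul_eq_mul, nsmul_eq_mul, hcard]
  ring

theorem part3 (hPLN : PlnStatement) (hU : UnvStatement) (hD : DtbStatement) (hC : CtsStatement)
    (hQ : KquStatement) :
    ∀ (K : Type) [Field K] [NumberField K] (v : FinitePlace K) (f : K[X]) (n m₀ n₀ : ℕ)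
    (κ : ℕ) (I : Ideal (Q K f)) (A B U W : Ex κ → K[X]) (M k : Ex κ → ℕ), f.Monic →
    f.natDegree = 5 → Squarefree f → NodeShape v.val f → 0 < n →
    v (discr f) * (Ideal.absNorm v.maximalIdeal.asIdeal : ℝ) ^ n = 1 → 0 < κ → I ≠ ⊥ →
    (∀ m, 0 < m → m ≤ n₀ → m ∣ m₀) →
    (∀ j, VG f (A j) (B j) ∧ SameCl (MI f (A j) (B j)) (I ^ (m₀ * k j))) →
    (∀ j, Gen f (A j) (B j) (U j) (W j) (M j)) →
    (Matrix.of fun (j e : Ex κ) => mon e.1 (kum f (A j) (B j))).det ≠ 0 →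
    Real.log (v (Matrix.of fun (j e : Ex κ) => mon e.1 (kum f (A j) (B j))).det) ≤
      κ * ∑ j, Lv v f (A j) (U j) (M j) -
        (if n ≤ n₀ then 0 else (κ ^ 3 + 2 * κ) / 6 * Real.log (v (discr f))) := by
  intro K _ _ v f n m₀ n₀ κ I A B U W M k hf h5 hsq hnode hn hval hκ hI hm₀ hVG hGen h0
  obtain ⟨s₁, Ω, _, w, i, c, ⟨m, hm⟩, hw, hna, hb⟩ := hPLN K v f n hf h5 hsq hnode hn hval I hI
  have hκ0 : (κ : ℝ) ≠ 0 := by exact_mod_cast hκ.ne'
  split_ifs with hnn
  · have h1 := (bound hU hD hQ i f κ A B hf h5 (fun j => vg_mum (hVG j).1) c (fun x => v x) w hw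
      (fun j => κ * Lv v f (A j) (U j) (M j)) (fun _ => 0) (fun j e => by
        rw [add_zero]
        refine (hb (m₀ * k j) (A j) (B j) (U j) (W j) (M j) (hVG j).1 (hVG j).2 (hGen j) κ e.1 hκ
          e.2).2 ?_
        obtain ⟨d, hd⟩ := hm₀ n hn hnn
        refine ⟨d * k j * m, ?_⟩
        rw [hd]
        push_cast
        rw [← hm]
        ring) h0).2 hna
    refine h1.trans (le_of_eq ?_)
    rw [Finset.sum_const_zero, add_zero, ← Finset.mul_sum, sub_zero]
  · have h1 := (bound hU hD hQ i f κ A B hf h5 (fun j => vg_mum (hVG j).1) c (fun x => v x) w hw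
      (fun j => κ * Lv v f (A j) (U j) (M j))
      (fun e => -(Real.log (v (discr f)) / (4 * κ) * (jj e.1 : ℝ) ^ 2)) (fun j e => by
        refine le_trans (hb (m₀ * k j) (A j) (B j) (U j) (W j) (M j) (hVG j).1 (hVG j).2 (hGen j) κ
          e.1 hκ e.2).1 (le_of_eq ?_)
        congr 1
        ring) h0).2 hna
    have hjj : (∑ e : Ex κ, (jj e.1 : ℝ) ^ 2) = κ ^ 2 * (2 * κ ^ 2 + 4) / 3 := by
      have h2 : ((3 * ∑ e ∈ Ex κ, jj e ^ 2 : ℕ) : ℝ) = ((κ ^ 2 * (2 * κ ^ 2 + 4) : ℕ) : ℝ) :=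
        congrArg _ (hC κ hκ).2.1
      push_cast at h2
      rw [Finset.sum_coe_sort (Ex κ) (fun e => (jj e : ℝ) ^ 2)]
      linarith
    refine h1.trans (le_of_eq ?_)
    rw [← Finset.mul_sum, Finset.sum_neg_distrib, ← Finset.mul_sum, hjj]
    field_simp
    ring

theorem ldt (hPLF : PlfStatement) (hPLI : PliStatement) (hPLN : PlnStatement) (hU : UnvStatement)
    (hD : DtbStatement) (hC : CtsStatement) (hQ : KquStatement) : LdtStatement :=
  ⟨part1 hPLF hU hD hC hQ, part2 hPLI hU hD hC hQ, part3 hPLN hU hD hC hQ⟩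

end Pool.Agent.KDT.H9
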